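import Mathlib
import Pool.Agent.Helper8.NonNilRad

set_option autoImplicit false

namespace Pool.Agent.Results.MP_768068_al.NonNilpotentRadical

universe u

/-- A (not necessarily associative, not necessarily unital) algebra over the field `K`: an additive
group with a distributive, possibly nonassociative multiplication and a `K`-vector space structure for
which the multiplication is `K`-bilinear. -/
structure NonassocAlgebra (K : Type u) [Field K] where
  carrier : Type u
  ring : NonUnitalNonAssocRing carrier
  module : Module K carrier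
  smul_mul : IsScalarTower K carrier carrier
  mul_smul : SMulCommClass K carrier carrier

attribute [instance] NonassocAlgebra.ring NonassocAlgebra.module NonassocAlgebra.smul_mul
  NonassocAlgebra.mul_smul

variable {K : Type u} [Field K] (X : NonassocAlgebra K)

/-- `IsProd X S n x`: `x` is a product of `n` elements of `S`, for some arrangement of parentheses. -/
inductive IsProd (S : Set X.carrier) : ℕ → X.carrier → Prop
  | base {x : X.carrier} : x ∈ S → IsProd S 1 x
  | mul {m n : ℕ} {x y : X.carrier} : IsProd S m x → IsProd S n y → IsProd S (m + n) (x * y)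

/-- There is `n ≥ 1` such that every product of `n` elements of `S` vanishes, for every arrangement of
parentheses. (For a subalgebra `S` this says that `S` is nilpotent.) -/
def IsNilpotentSet (S : Set X.carrier) : Prop :=
  ∃ n : ℕ, 1 ≤ n ∧ ∀ x : X.carrier, IsProd X S n x → x = 0

/-- A `K`-subspace is a two-sided ideal. -/
def IsAlgIdeal (I : Submodule K X.carrier) : Prop :=
  ∀ a : X.carrier, ∀ x ∈ I, a * x ∈ I ∧ x * a ∈ I

/-- Every finitely generated subalgebra of (the algebra) `I` is nilpotent. -/
def IsLocallyNilpotent (I : Submodule K X.carrier) : Prop :=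
  ∀ F : Finset X.carrier, (∀ x ∈ F, x ∈ I) →
    IsNilpotentSet X (NonUnitalAlgebra.adjoin K (F : Set X.carrier) : Set X.carrier)

/-- `L` is the locally nilpotent radical: the largest locally nilpotent ideal. -/
def IsLocNilRadical (L : Submodule K X.carrier) : Prop :=
  IsAlgIdeal X L ∧ IsLocallyNilpotent X L ∧
    ∀ I : Submodule K X.carrier, IsAlgIdeal X I → IsLocallyNilpotent X I → I ≤ L

/-- The ascending chain condition on two-sided ideals. -/
def WeaklyNoetherian : Prop :=
  ∀ f : ℕ → Submodule K X.carrier, (∀ n, IsAlgIdeal X (f n)) → (∀ n, f n ≤ f (n + 1)) →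
    ∃ N, ∀ n, N ≤ n → f n = f N

def IsAssociative : Prop := ∀ a b c : X.carrier, (a * b) * c = a * (b * c)

def IsAlternative : Prop :=
  (∀ a b : X.carrier, (a * a) * b = a * (a * b)) ∧ (∀ a b : X.carrier, (b * a) * a = b * (a * a))

def IsJordan : Prop :=
  (∀ a b : X.carrier, a * b = b * a) ∧ (∀ a b : X.carrier, (a * b) * (a * a) = a * (b * (a * a)))

/-- `X` is weakly Noetherian and its locally nilpotent radical `L(X)` exists and is not nilpotent. -/
def BadRadical : Prop :=
  WeaklyNoetherian X ∧
    ∃ L : Submodule K X.carrier, IsLocNilRadical X L ∧ ¬ IsNilpotentSet X (L : Set X.carrier)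

open Pool.Agent.Helper8

theorem isProd_iff (S : Set X.carrier) (n : ℕ) (x : X.carrier) :
    IsProd X S n x ↔ NonNilRad.IsProd S n x := by
  constructor
  · intro h
    induction h with
    | base h => exact NonNilRad.IsProd.base h
    | mul _ _ h1 h2 => exact NonNilRad.IsProd.mul h1 h2
  · intro h
    induction h with
    | base h => exact IsProd.base h
    | mul _ _ h1 h2 => exact IsProd.mul h1 h2

theorem nil_iff (S : Set X.carrier) : IsNilpotentSet X S ↔ NonNilRad.IsNilpotentSet S := by
  unfold IsNilpotentSet NonNilRad.IsNilpotentSet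
  simp_rw [isProd_iff]

theorem ln_iff (I : Submodule K X.carrier) :
    IsLocallyNilpotent X I ↔ NonNilRad.IsLocallyNilpotent K I := by
  unfold IsLocallyNilpotent NonNilRad.IsLocallyNilpotent
  simp_rw [nil_iff]

theorem bad_iff : BadRadical X ↔ NonNilRad.BadRadical K X.carrier := by
  unfold BadRadical NonNilRad.BadRadical IsLocNilRadical NonNilRad.IsLocNilRadical
  simp_rw [nil_iff, ln_iff]
  rfl

/-- The locally nilpotent radical of a weakly Noetherian algebra need not be nilpotent, in each of the
three cases (a) associative, (b) alternative, (c) Jordan; counterexamples exist over every field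
(of characteristic not `2` in the Jordan case). -/
theorem result : ∀ (K : Type u) [Field K],
    (∃ X : NonassocAlgebra K, IsAssociative X ∧ BadRadical X) ∧
    (∃ X : NonassocAlgebra K, IsAlternative X ∧ BadRadical X) ∧
    ((2 : K) ≠ 0 → ∃ X : NonassocAlgebra K, IsJordan X ∧ BadRadical X) := by
  intro K _
  refine ⟨⟨⟨NonNilRad.TA K, inferInstance, inferInstance, inferInstance, inferInstance⟩, mul_assoc, ?_⟩,
    ⟨⟨NonNilRad.TA K, inferInstance, inferInstance, inferInstance, inferInstance⟩,
      ⟨fun a b => mul_assoc a a b, fun a b => mul_assoc b a a⟩, ?_⟩, ?_⟩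
  · rw [bad_iff]; exact NonNilRad.bad_assoc K
  · rw [bad_iff]; exact NonNilRad.bad_assoc K
  · intro h2
    obtain ⟨A, i1, i2, i3, i4, h5, h6⟩ := NonNilRad.bad_jordan K h2
    exact ⟨⟨A, i1, i2, i3, i4⟩, h5, (bad_iff _).2 h6⟩

end Pool.Agent.Results.MP_768068_al.NonNilpotentRadical
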